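import Pool.Agent.Zk51.NK.Whisk

/-!
# The law of the ratios for the endomorphisms of the powers of an object, and Kimura
# finite-dimensionality
-/

set_option autoImplicit false
set_option linter.unusedSectionVars false

open CategoryTheory Limits MonoidalCategory Module Filter Topology
open Pool.Agent.Y112.SR Pool.Agent.Y112.KD Pool.Agent.N64.AF Pool.Agent.N413.AFW
open scoped ENNReal

namespace Pool.Agent.Zk51.NK

universe v u w t x

variable {C : Type u} [Category.{v} C] [Preadditive C] [MonoidalCategory C]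
  [MonoidalPreadditive C] [SymmetricCategory C] [RightRigidCategory C]
  {Λ : Type t} [Field Λ] [CharZero Λ] [Linear Λ C] [MonoidalLinear Λ C]
  {K : Type w} [Field K] [IsAlgClosed K] [Algebra Λ K] {R : SuperRealisation C K}

/-- The dimension of the space of the morphisms from `Y` to `Z` modulo numerical equivalence. -/
noncomputable def numDim (Λ : Type t) [Field Λ] [Linear Λ C] [MonoidalLinear Λ C] (Y Z : C) : ℕ :=
  finrank Λ ((Y ⟶ Z) ⧸ numIdeal Λ Y Z)

omit [CharZero Λ] in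
lemma nr_one (Y Z : C) : nr Λ (𝟙 Y) (𝟙 Z) = numDim Λ Y Z := by
  unfold nr numDim
  have h1 : (numIdeal Λ Y Z).mkQ ∘ₗ Linear.rightComp Λ Y (𝟙 Z) ∘ₗ Linear.leftComp Λ Z (𝟙 Y) =
      (numIdeal Λ Y Z).mkQ := by
    ext f
    simp [Linear.rightComp, Linear.leftComp]
  rw [h1, LinearMap.range_eq_top.2 (Submodule.mkQ_surjective _), finrank_top]

omit [CharZero Λ] in
lemma dimE_congr {V : Type v} {W : Type v} [AddCommGroup V] [Module Λ V] [AddCommGroup W]
    [Module Λ W] (e : V ≃ₗ[Λ] W) : dimE Λ V = dimE Λ W := by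
  unfold dimE
  rw [e.rank_eq]

/-- The law for the endomorphisms of the powers of an object which satisfies the sign conjecture. -/
theorem end_law [Linear ℚ C] [MonoidalLinear ℚ C] [Algebra ℚ K] [IsIdempotentComplete C]
    (hR : IsReal ℚ R) {T : C} (hT : R.CPlus T) (hb : 0 < bt R T) :
    ∃ N : ℕ∞, N ≠ 0 ∧
      Tendsto (fun n => ((dimE ℚ (tp T n ⟶ tp T n) : ℕ∞) : ℝ≥0∞) / numDim ℚ (tp T n) (tp T n))
        atTop (𝓝 (N : ℝ≥0∞)) ∧
      (N = 1 ↔ ∀ (n : ℕ) (y : tp T n ⟶ tp T n), NumTriv y → y = 0) ∧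
      ∀ k : ℕ, N = k → (∀ n, Module.Finite ℚ (tp T n ⟶ tp T n)) ∧
        (∀ (n : ℕ) (l : List (End (tp T n))), l.length = k →
          (∀ y ∈ l, NumTriv (y : tp T n ⟶ tp T n)) → l.prod = 0) ∧
        Pool.Agent.R905.IsKimuraFinite T := by
  obtain ⟨inst, hS⟩ := isPow_tensor_dual hR hT hb
  obtain ⟨N, h0, h1, h2, h3⟩ := chow_law (T := T ⊗ Tᘁ) hS
  have e : ∀ n, Nonempty ((𝟙_ C ⟶ tp (T ⊗ Tᘁ) n) ≃ₗ[ℚ] (tp T n ⟶ tp T n)) :=
    nonempty_equiv_tensor_dual T
  have hnum : ∀ n, numRank ℚ (tp (T ⊗ Tᘁ) n) = numDim ℚ (tp T n) (tp T n) := fun n => by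
    rw [numRank_tensor_dual hR, nr_one]
  have hdim : ∀ n, dimE ℚ (𝟙_ C ⟶ tp (T ⊗ Tᘁ) n) = dimE ℚ (tp T n ⟶ tp T n) := fun n =>
    dimE_congr (e n).some
  have h1' : Tendsto (fun n => ((dimE ℚ (tp T n ⟶ tp T n) : ℕ∞) : ℝ≥0∞) /
      numDim ℚ (tp T n) (tp T n)) atTop (𝓝 (N : ℝ≥0∞)) := by
    refine h1.congr fun n => ?_
    rw [hdim, hnum]
  refine ⟨N, h0, h1', ⟨?_, ?_⟩, ?_⟩
  · intro hN n y hy
    exact eq_zero_of_up (h2.1 hN n n (up y) (numTriv_up hR hy))
  · intro hall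
    have h4 : ∀ n, (dimE ℚ (tp T n ⟶ tp T n) : ℕ∞) = (numDim ℚ (tp T n) (tp T n) : ℕ∞) := by
      intro n
      have h5 : numIdeal ℚ (tp T n) (tp T n) = ⊥ := by
        rw [eq_bot_iff]
        intro α hα
        exact hall n α hα
      have h6 := finite_num hR (tp T n) (tp T n)
      have e' : ((tp T n ⟶ tp T n) ⧸ numIdeal ℚ (tp T n) (tp T n)) ≃ₗ[ℚ] (tp T n ⟶ tp T n) :=
        Submodule.quotEquivOfEqBot _ h5
      have h7 : Module.Finite ℚ (tp T n ⟶ tp T n) := Module.Finite.equiv e'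
      rw [dimE_eq, numDim, e'.finrank_eq]
    have h5 : Tendsto (fun n => ((dimE ℚ (tp T n ⟶ tp T n) : ℕ∞) : ℝ≥0∞) /
        numDim ℚ (tp T n) (tp T n)) atTop (𝓝 (1 : ℝ≥0∞)) := by
      refine tendsto_const_nhds.congr fun n => ?_
      rw [h4 n]
      have h6 : (numDim ℚ (tp T n) (tp T n) : ℝ≥0∞) ≠ 0 := by
        rw [← hnum]
        exact_mod_cast (numRank_mono hS n).1.ne'
      symm
      exact ENNReal.div_self h6 (ENNReal.natCast_ne_top _)
    have h6 := tendsto_nhds_unique h1' h5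
    exact_mod_cast h6
  · intro k hk
    obtain ⟨h4, h5, -⟩ := h3 k hk
    have hpow : ∀ (n : ℕ) (l : List (End (tp T n))), l.length = k →
        (∀ y ∈ l, NumTriv (y : tp T n ⟶ tp T n)) → l.prod = 0 := by
      intro n l hl hy
      have h6 := numPow_up hR l hy
      rw [hl] at h6
      exact eq_zero_of_up (h5 n n _ h6)
    refine ⟨fun n => ?_, hpow, ?_⟩
    · have := h4 0 n
      exact Module.Finite.equiv (e n).some
    · refine kimura_of_nil hR hT fun n y hy => ⟨k, ?_⟩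
      have h6 := hpow n (List.replicate k y) (List.length_replicate ..) (by
        intro z hz
        rw [List.eq_of_mem_replicate hz]
        exact numTriv_of_map hR hy)
      rwa [List.prod_replicate] at h6

end Pool.Agent.Zk51.NK
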