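import Pool.Agent.Zk51.NK.Law

/-!
# Kimura finite-dimensionality from one inequality
-/

set_option autoImplicit false
set_option linter.unusedSectionVars false

open CategoryTheory Limits MonoidalCategory Module Filter Topology
open Pool.Agent.Y112.SR Pool.Agent.Y112.KD Pool.Agent.N64.AF Pool.Agent.N413.AFW
open scoped ENNReal

namespace Pool.Agent.Zk51.NK

universe v u w t x

section One

variable {C : Type u} [Category.{v} C] [Preadditive C] [MonoidalCategory C]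
  [MonoidalPreadditive C] [SymmetricCategory C] [RightRigidCategory C]
  {Λ : Type t} [Field Λ] [CharZero Λ] [Linear Λ C] [MonoidalLinear Λ C]
  {K : Type w} [Field K] [IsAlgClosed K] [Algebra Λ K] {R : SuperRealisation C K}

/-- The numerically trivial morphisms from the unit object are a stable family of subspaces. -/
lemma num_stab (hR : IsReal Λ R) :
    IsStab (homF Λ (𝟙_ C)) (fun Z => (numIdeal Λ (𝟙_ C) Z : Submodule Λ ((homF Λ (𝟙_ C)).obj Z))) := by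
  intro Y Z f α hα
  have h1 := NumTriv.comp hR (mem_numIdeal.1 hα) (𝟙 _) f
  rw [Category.id_comp] at h1
  exact h1

/-- One inequality implies that there are no numerically trivial endomorphisms. -/
theorem end_zero (hR : IsReal Λ R) {T : C} (hT : R.CPlus T) (hb : 0 < bt R T) {m n : ℕ}
    (hn : 128 * (m + 1) ^ 2 * bt R T ^ (4 * m + 12) ≤ n)
    (hlt : 2 * dimE Λ (tp T n ⟶ tp T n) < 3 * (numDim Λ (tp T n) (tp T n) : ℕ∞))
    (y : tp T m ⟶ tp T m) (hy : NumTriv y) : y = 0 := by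
  obtain ⟨inst, hS⟩ := isPow_tensor_dual hR hT hb
  have e : ∀ n, Nonempty ((𝟙_ C ⟶ tp (T ⊗ Tᘁ) n) ≃ₗ[Λ] (tp T n ⟶ tp T n)) :=
    nonempty_equiv_tensor_dual T
  have hnum : ∀ n, numRank Λ (tp (T ⊗ Tᘁ) n) = numDim Λ (tp T n) (tp T n) := fun n => by
    rw [numRank_tensor_dual hR, nr_one]
  have hfin : Module.Finite Λ (tp T n ⟶ tp T n) := by
    by_contra hcon
    rw [dimE_top hcon] at hlt
    have h1 : (2 : ℕ∞) * ⊤ = ⊤ := ENat.mul_top (by norm_num)
    rw [h1] at hlt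
    exact not_top_lt hlt
  have hfin' : Module.Finite Λ (𝟙_ C ⟶ tp (T ⊗ Tᘁ) n) := Module.Finite.equiv (e n).some.symm
  rw [dimE_eq] at hlt
  have hlt' : 2 * finrank Λ (tp T n ⟶ tp T n) < 3 * numDim Λ (tp T n) (tp T n) := by
    exact_mod_cast hlt
  rw [← (e n).some.finrank_eq, ← hnum] at hlt'
  have h2 : finrank Λ (numIdeal Λ (𝟙_ C) (tp (T ⊗ Tᘁ) n)) + numRank Λ (tp (T ⊗ Tᘁ) n) =
      finrank Λ (𝟙_ C ⟶ tp (T ⊗ Tᘁ) n) := by
    have h3 := (numIdeal Λ (𝟙_ C) (tp (T ⊗ Tᘁ) n)).finrank_quotient_add_finrank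
    unfold numRank
    omega
  have h4 : 2 * finrank Λ (numIdeal Λ (𝟙_ C) (tp (T ⊗ Tᘁ) n)) < numRank Λ (tp (T ⊗ Tᘁ) n) := by
    omega
  have h5 : Subsingleton ((sub (homF Λ (𝟙_ C)) _ (num_stab hR)).obj (tp (T ⊗ Tᘁ) m)) := by
    refine explicit_criterion hS (sub (homF Λ (𝟙_ C)) _ (num_stab hR)) (m := m) (n := n) ?_ ?_ h4
    · have e1 : bt R (T ⊗ Tᘁ) = bt R T ^ 2 := by rw [bt_tensor, bt_dual, sq]
      rw [e1, ← pow_mul]
      have e2 : 2 * (2 * m + 6) = 4 * m + 12 := by ring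
      rwa [e2]
    · exact inferInstanceAs (Module.Finite Λ (numIdeal Λ (𝟙_ C) (tp (T ⊗ Tᘁ) n)))
  -- the morphism attached to `y`
  let _ := pairTp T Tᘁ m
  have h6 : NumTriv ((η_ (tp T m) (dp Tᘁ m)) ≫ (y ▷ dp Tᘁ m) ≫ (isoTp T Tᘁ m).inv) :=
    NumTriv.comp hR (NumTriv.whiskerRight hR hy _) _ _
  have h7 : (η_ (tp T m) (dp Tᘁ m)) ≫ (y ▷ dp Tᘁ m) ≫ (isoTp T Tᘁ m).inv = 0 := by
    have h8 : (⟨_, h6⟩ : numIdeal Λ (𝟙_ C) (tp (T ⊗ Tᘁ) m)) = 0 := @Subsingleton.elim _ h5 _ _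
    exact congrArg Subtype.val h8
  have h8 : (η_ (tp T m) (dp Tᘁ m)) ≫ (y ▷ dp Tᘁ m) = 0 := by
    have h9 := congrArg (fun f => f ≫ (isoTp T Tᘁ m).hom) h7
    simpa using h9
  have h10 : tensorRightHomEquiv (𝟙_ C) (tp T m) (dp Tᘁ m) (tp T m) ((λ_ (tp T m)).hom ≫ y) = 0 := by
    change (ρ_ (𝟙_ C)).inv ≫ 𝟙_ C ◁ η_ _ _ ≫ (α_ _ _ _).inv ≫ ((λ_ (tp T m)).hom ≫ y) ▷ dp Tᘁ m = 0
    have h11 : (ρ_ (𝟙_ C)).inv ≫ 𝟙_ C ◁ η_ (tp T m) (dp Tᘁ m) ≫ (α_ _ _ _).inv ≫
        ((λ_ (tp T m)).hom ≫ y) ▷ dp Tᘁ m = (η_ (tp T m) (dp Tᘁ m)) ≫ (y ▷ dp Tᘁ m) := by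
      have h12 : (ρ_ (𝟙_ C)).inv ≫ (λ_ (𝟙_ C)).hom = 𝟙 _ := by
        rw [← unitors_inv_equal, Iso.inv_hom_id]
      simp [comp_whiskerRight, reassoc_of% h12]
    rw [h11, h8]
  have h11 : tensorRightHomEquiv (𝟙_ C) (tp T m) (dp Tᘁ m) (tp T m)
      (0 : 𝟙_ C ⊗ tp T m ⟶ tp T m) = 0 := by
    change (ρ_ (𝟙_ C)).inv ≫ 𝟙_ C ◁ η_ _ _ ≫ (α_ _ _ _).inv ≫
      (0 : 𝟙_ C ⊗ tp T m ⟶ tp T m) ▷ dp Tᘁ m = 0
    rw [MonoidalPreadditive.zero_whiskerRight, comp_zero, comp_zero, comp_zero]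
  have h12 := (tensorRightHomEquiv (𝟙_ C) (tp T m) (dp Tᘁ m) (tp T m)).injective (h10.trans h11.symm)
  have h13 : y = (λ_ (tp T m)).inv ≫ (λ_ (tp T m)).hom ≫ y := by rw [Iso.inv_hom_id_assoc]
  rw [h13, h12, comp_zero]

end One

section Two

variable {C : Type u} [Category.{v} C] [Preadditive C] [MonoidalCategory C]
  [MonoidalPreadditive C] [SymmetricCategory C] [RightRigidCategory C]
  [Linear ℚ C] [MonoidalLinear ℚ C] [IsIdempotentComplete C]
  {K : Type w} [Field K] [IsAlgClosed K] [Algebra ℚ K] {R : SuperRealisation C K}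

open Pool.Agent.R905 Pool.Agent.N861.AF in
/-- Kimura finite-dimensionality if there are no homologically trivial endomorphisms of small
powers. -/
theorem kimura_of_small (hR : IsReal ℚ R) {T : C} (hT : R.CPlus T)
    (h0 : ∀ m ≤ bt R T + 1, ∀ y : tp T m ⟶ tp T m, R.H.map y = 0 → y = 0) (hb : 0 < bt R T) :
    Pool.Agent.R905.IsKimuraFinite T := by
  have hc := R_charZero R
  have hU : UnitQ C := by
    refine ⟨hR.unit, fun h => ?_⟩
    have h1 := bt_unit R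
    have h2 : 𝟙 (R.H.obj (𝟙_ C)) = 0 := by
      rw [← CategoryTheory.Functor.map_id, h, Functor.map_zero]
    have h3 : IsZero (R.H.obj (𝟙_ C)) := (IsZero.iff_id_eq_zero _).2 h2
    have h4 : Subsingleton (R.H.obj (𝟙_ C)) := ModuleCat.subsingleton_of_isZero h3
    unfold bt at h1
    rw [finrank_zero_of_subsingleton] at h1
    exact zero_ne_one h1
  have hT1 : HomNil R T := by
    have h1 : HomNil R (tp T 1) := fun y hy => ⟨1, by rw [pow_one]; exact h0 1 (by omega) y hy⟩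
    exact h1.retract (λ_ T).inv (λ_ T).hom (by simp)
  obtain ⟨E, O, i, r, i', r', h1, h2, h3, hE, hO⟩ := exists_parts R hT hT1
  have key : ∀ (P : C) (i : P ⟶ T) (r : T ⟶ P), i ≫ r = 𝟙 P →
      ∀ y : tp P (finrank K (R.H.obj P) + 1) ⟶ tp P (finrank K (R.H.obj P) + 1),
        R.H.map y = 0 → y = 0 := by
    intro P i r hir y hy
    have hfin := R.finite T
    have hfinP := R.finite P
    have hle : finrank K (R.H.obj P) ≤ bt R T := by
      have h4 : (R.H.map r).hom ∘ₗ (R.H.map i).hom = LinearMap.id := by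
        have h5 := congrArg (fun f => (R.H.map f).hom) hir
        simp only [Functor.map_comp, ModuleCat.hom_comp, CategoryTheory.Functor.map_id,
          ModuleCat.hom_id] at h5
        exact h5
      refine LinearMap.finrank_le_finrank_of_injective (f := (R.H.map i).hom) ?_
      intro a c hac
      have h5 := congrArg (fun f => f a) h4
      have h6 := congrArg (fun f => f c) h4
      simp only [LinearMap.comp_apply, LinearMap.id_apply] at h5 h6
      rw [← h5, ← h6, hac]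
    have h4 : tpm r (finrank K (R.H.obj P) + 1) ≫ y ≫ tpm i (finrank K (R.H.obj P) + 1) = 0 := by
      apply h0 _ (by omega)
      rw [Functor.map_comp, Functor.map_comp, hy, zero_comp, comp_zero]
    have h5 : tpm i (finrank K (R.H.obj P) + 1) ≫ tpm r (finrank K (R.H.obj P) + 1) = 𝟙 _ := by
      rw [tpm_comp, hir, tpm_id]
    calc y = (tpm i _ ≫ tpm r _) ≫ y ≫ (tpm i _ ≫ tpm r _) := by
          rw [h5, Category.id_comp, Category.comp_id]
      _ = tpm i _ ≫ (tpm r _ ≫ y ≫ tpm i _) ≫ tpm r _ := by simp only [Category.assoc]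
      _ = 0 := by rw [h4, zero_comp, comp_zero]
  have hn1 : asym (-1) E (finrank K (R.H.obj E) + 1) = 0 :=
    key E i r h1 _ (map_asym_zero R hU 1 (by norm_num) (by rw [hE]; norm_num))
  have hm : asym (-(-1)) O (finrank K (R.H.obj O) + 1) = 0 :=
    key O i' r' h2 _ (map_asym_zero R hU (-1) (by norm_num) (by rw [hO]; norm_num))
  rw [neg_neg] at hm
  exact (isKimuraFinite_iff T).2 ⟨E, O, i, r, i', r', h1, h2, h3, ⟨_, hn1⟩, _, hm⟩

/-- One inequality implies that the object is finite-dimensional in the sense of Kimura. -/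
theorem kimura_explicit (hR : IsReal ℚ R) {T : C} (hT : R.CPlus T) (hb : 0 < bt R T) {n : ℕ}
    (hn : 128 * (bt R T + 2) ^ 2 * bt R T ^ (4 * bt R T + 16) ≤ n)
    (hlt : 2 * dimE ℚ (tp T n ⟶ tp T n) < 3 * (numDim ℚ (tp T n) (tp T n) : ℕ∞)) :
    Pool.Agent.R905.IsKimuraFinite T := by
  refine kimura_of_small hR hT (fun m hm y hy => ?_) hb
  refine end_zero hR hT hb (m := m) (n := n) (le_trans ?_ hn) hlt y (numTriv_of_map hR hy)
  refine Nat.mul_le_mul (Nat.mul_le_mul le_rfl (Nat.pow_le_pow_left (by omega) 2))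
    (Nat.pow_le_pow_right hb (by omega))

end Two

end Pool.Agent.Zk51.NK
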