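import Pool.Agent.Zk51.NK.Explicit
import Pool.Agent.N64.AF.M6

/-!
# The law of the ratios for the homologically trivial classes on the powers of an object
-/

set_option autoImplicit false
set_option linter.unusedSectionVars false

open CategoryTheory Limits MonoidalCategory Module Filter Topology
open Pool.Agent.Y112.SR Pool.Agent.Y112.KD Pool.Agent.N64.AF Pool.Agent.N645.AFK1
open scoped ENNReal

namespace Pool.Agent.Zk51.NK

universe v u w t x

section One

variable {C : Type u} [Category.{v} C] [Preadditive C] [MonoidalCategory C]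
  [MonoidalPreadditive C] [SymmetricCategory C] [RightRigidCategory C]
  {Λ : Type t} [Field Λ] [CharZero Λ] [Linear Λ C] [MonoidalLinear Λ C]
  {K : Type w} [Field K] [IsAlgClosed K] [Algebra Λ K] {R : SuperRealisation C K}

/-- The homologically trivial morphisms from the unit object are a stable family of subspaces. -/
lemma homz_stab (hR : IsReal Λ R) :
    IsStab (homF Λ (𝟙_ C)) (fun Z => (homSub hR (𝟙_ C) Z : Submodule Λ ((homF Λ (𝟙_ C)).obj Z))) := by
  intro Y Z f α hα
  change R.H.map ((show 𝟙_ C ⟶ Y from α) ≫ f) = 0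
  have h : R.H.map (show 𝟙_ C ⟶ Y from α) = 0 := hα
  rw [Functor.map_comp, h, zero_comp]

/-- The functor of the homologically trivial classes. -/
abbrev homz (hR : IsReal Λ R) : C ⥤ ModuleCat.{v} Λ :=
  sub (homF Λ (𝟙_ C)) _ (homz_stab hR)

/-- The morphism `f` is a composition of a homologically trivial morphism to a tensor power of `T`
with `k` numerically trivial morphisms whose sources are tensor powers of `T`. -/
def HomNum (R : SuperRealisation C K) (T : C) (k : ℕ) {Y Z : C} (f : Y ⟶ Z) : Prop :=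
  ∃ (b : ℕ) (g : Y ⟶ tp T b) (l : tp T b ⟶ Z), R.H.map g = 0 ∧ NumPow T k l ∧ f = g ≫ l

lemma HomNum.comp {T : C} {k : ℕ} {W Y Z : C} (e : W ⟶ Y) {f : Y ⟶ Z} (hf : HomNum R T k f) :
    HomNum R T k (e ≫ f) := by
  obtain ⟨b, g, l, h1, h2, rfl⟩ := hf
  exact ⟨b, e ≫ g, l, by rw [Functor.map_comp, h1, comp_zero], h2, (Category.assoc _ _ _).symm⟩

lemma map_whiskerRight_zero (R : SuperRealisation C K) {Y Z : C} {g : Y ⟶ Z} (h : R.H.map g = 0)
    (T : C) : R.H.map (g ▷ T) = 0 := by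
  rw [Functor.Monoidal.map_whiskerRight, h, MonoidalPreadditive.zero_whiskerRight, zero_comp,
    comp_zero]

lemma HomNum.whisker (hR : IsReal Λ R) {T : C} {k : ℕ} {Y Z : C} {f : Y ⟶ Z}
    (hf : HomNum R T k f) : HomNum R T k (f ▷ T) := by
  obtain ⟨b, g, l, h1, h2, rfl⟩ := hf
  exact ⟨b + 1, g ▷ T, l ▷ T, map_whiskerRight_zero R h1 T, numPow_whisker hR k h2,
    comp_whiskerRight _ _ _⟩

lemma homNum_vanish (hR : IsReal Λ R) {T : C} [ExactPairing T T] {N : ℕ}
    (h0 : ∀ (b : ℕ) (f : tp T 0 ⟶ tp T b), HomNum R T N f → f = 0) (a : ℕ) :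
    ∀ (b : ℕ) (f : tp T a ⟶ tp T b), HomNum R T N f → f = 0 := by
  induction a with
  | zero => exact h0
  | succ a ih =>
    intro b f hf
    have h1 : cur Λ T (tp T a) (tp T b) f = 0 := by
      apply ih (b + 1)
      rw [cur_eq]
      exact HomNum.comp _ (HomNum.whisker hR hf)
    exact (LinearEquiv.map_eq_zero_iff _).1 h1

/-- The law of the ratios for the homologically trivial classes. -/
theorem hom_ratio {T : C} [ExactPairing T T] (h : IsPow Λ R T) :
    ∃ N : ℕ∞, RatioTo Λ T (fun n => dimE Λ (homSub h.real (𝟙_ C) (tp T n))) N ∧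
      (N = 0 ↔ ∀ (a b : ℕ) (f : tp T a ⟶ tp T b), R.H.map f = 0 → f = 0) ∧
      ∀ k : ℕ, N = k → (∀ n, Module.Finite Λ (homSub h.real (𝟙_ C) (tp T n))) ∧
        (∀ (a b c : ℕ) (g : tp T a ⟶ tp T b) (f : tp T b ⟶ tp T c), R.H.map g = 0 →
          NumPow T k f → g ≫ f = 0) ∧
        ∃ (ι : Type) (_ : Fintype ι) (m r : ι → ℕ) (e : ∀ i, tp T (m i) ⟶ tp T (m i)),
          (∀ i, NumIdem (e i) ∧ IsRk R (e i) (r i) ∧ 0 < r i) ∧ ∑ i, r i = k ∧
          ∀ n, finrank Λ (homSub h.real (𝟙_ C) (tp T n)) = ∑ i, nr Λ (e i) (𝟙 (tp T n)) := by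
  obtain ⟨N, h1, h2, h3⟩ := law h (homz h.real)
  have hR := h.real
  refine ⟨N, h1, ?_, ?_⟩
  · rw [h2]
    constructor
    · intro h4
      -- the case of the unit object
      have h5 : ∀ (b : ℕ) (f : tp T 0 ⟶ tp T b), HomNum R T 0 f → f = 0 := by
        rintro b f ⟨b', g, l, hg, -, rfl⟩
        have h6 : (⟨g ≫ l, by
          change R.H.map (g ≫ l) = 0
          rw [Functor.map_comp, hg, zero_comp]⟩ : homSub hR (𝟙_ C) (tp T b)) = 0 :=
            @Subsingleton.elim _ (h4 b) _ _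
        exact congrArg Subtype.val h6
      intro a b f hf
      exact homNum_vanish hR h5 a b f ⟨b, f, 𝟙 _, hf, trivial, (Category.comp_id f).symm⟩
    · intro h4 n
      refine ⟨fun x y => ?_⟩
      have h5 : ∀ x : (homz hR).obj (tp T n), x = 0 := by
        rintro ⟨x, hx⟩
        exact Subtype.ext (h4 0 n x hx)
      rw [h5 x, h5 y]
  · intro k hk
    have h4 := h3 (by rw [hk]; exact ENat.natCast_ne_top k)
    have hk' : Tendsto (fun n => ((dimE Λ ((homz h.real).obj (tp T n)) : ℕ∞) : ℝ≥0∞) /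
        numRank Λ (tp T n)) atTop (𝓝 (k : ℝ≥0∞)) := by
      rw [hk] at h1
      exact_mod_cast h1
    obtain ⟨h5, h6⟩ := structure_thm h (homz h.real) hk'
    refine ⟨fun n => (h4.1 n).1, ?_, h5⟩
    have h7 : ∀ (b : ℕ) (f : tp T 0 ⟶ tp T b), HomNum R T k f → f = 0 := by
      rintro b f ⟨b', g, l, hg, hl, rfl⟩
      have h8 := h6 b' b l hl
      have h9 : ((homz hR).map l).hom (⟨g, hg⟩ : homSub hR (𝟙_ C) (tp T b')) =
          (⟨g ≫ l, (homz_stab hR) l hg⟩ : homSub hR (𝟙_ C) (tp T b)) := rfl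
      rw [h8] at h9
      exact (congrArg Subtype.val h9).symm
    intro a b c g f hg hf
    exact homNum_vanish hR h7 a c _ ⟨b, g, f, hg, hf, rfl⟩

/-- One inequality. -/
theorem hom_explicit {T : C} [ExactPairing T T] (h : IsPow Λ R T) {m n : ℕ}
    (hn : 128 * (m + 1) ^ 2 * bt R T ^ (2 * m + 6) ≤ n)
    (hlt : 2 * dimE Λ (homSub h.real (𝟙_ C) (tp T n)) < numRank Λ (tp T n))
    (α : 𝟙_ C ⟶ tp T m) (hα : R.H.map α = 0) : α = 0 := by
  obtain ⟨h1, h2⟩ := dimE_lt hlt
  have h3 : Subsingleton ((homz h.real).obj (tp T m)) :=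
    explicit_criterion h (homz h.real) hn h1 h2
  have h4 : (⟨α, hα⟩ : homSub h.real (𝟙_ C) (tp T m)) = 0 := @Subsingleton.elim _ h3 _ _
  exact congrArg Subtype.val h4

end One

section Two

variable {C : Type u} [Category.{v} C] [Preadditive C] [MonoidalCategory C]
  [MonoidalPreadditive C] [SymmetricCategory C] [RightRigidCategory C]
  [Linear ℚ C] [MonoidalLinear ℚ C]
  {K : Type w} [Field K] [IsAlgClosed K] [Algebra ℚ K] {R : SuperRealisation C K}

lemma numPow_power {T : C} {n : ℕ} {y : tp T n ⟶ tp T n} (hR : IsReal ℚ R) (hy : R.H.map y = 0)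
    (k : ℕ) : NumPow T k (((show End (tp T n) from y) ^ k : End (tp T n)) : tp T n ⟶ tp T n) :=
  numPow_pow (show End (tp T n) from y) (numTriv_of_map hR hy) k

open Pool.Agent.R905 Pool.Agent.N861.AF in
/-- The exterior power of degree `b + 1` of an object without odd cohomology vanishes if the
homologically trivial endomorphisms of its powers are nilpotent. -/
theorem asym_zero_even [IsIdempotentComplete C] (hR : IsReal ℚ R) {T : C} (hT : R.par T = 𝟙 _)
    (hnil : ∀ (n : ℕ) (y : End (tp T n)), R.H.map (y : tp T n ⟶ tp T n) = 0 → IsNilpotent y) :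
    asym (-1) T (bt R T + 1) = 0 := by
  have hc := R_charZero R
  have hU : UnitQ C := by
    refine ⟨hR.unit, fun h => ?_⟩
    have h1 := bt_unit R
    have h2 : 𝟙 (R.H.obj (𝟙_ C)) = 0 := by
      rw [← CategoryTheory.Functor.map_id, h, Functor.map_zero]
    have h3 : IsZero (R.H.obj (𝟙_ C)) := (IsZero.iff_id_eq_zero _).2 h2
    have h4 : Subsingleton (R.H.obj (𝟙_ C)) := ModuleCat.subsingleton_of_isZero h3
    unfold bt at h1
    rw [finrank_zero_of_subsingleton] at h1
    exact zero_ne_one h1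
  obtain ⟨k, hk⟩ := hnil _ (en (asym (-1) T (finrank K (R.H.obj T) + 1)))
    (map_asym_zero R hU 1 (by norm_num) (by rw [hT]; norm_num))
  have h1 : IsIdempotentElem (en (asym (-1) T (finrank K (R.H.obj T) + 1))) :=
    asym_idem (by norm_num) T _
  have h2 := h1.pow_succ_eq k
  rw [pow_succ, hk, zero_mul] at h2
  exact h2.symm

end Two

end Pool.Agent.Zk51.NK
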