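import Pool.Agent.N64.AF.L1
import Pool.Agent.N64.AF.M5

/-!
# Endomorphisms of the powers of an object and of its product with the dual
-/

set_option autoImplicit false
set_option linter.unusedSectionVars false

open CategoryTheory Limits MonoidalCategory Module Filter Topology
open Pool.Agent.Y112.SR Pool.Agent.Y112.KD Pool.Agent.N64.AF Pool.Agent.N413.AFW

namespace Pool.Agent.Zk51.NK

universe v u w t x

section Mon

variable {C : Type u} [Category.{v} C] [Preadditive C] [MonoidalCategory C]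
  [MonoidalPreadditive C]

/-- A morphism is zero if its product with an object which has a left dual is zero. -/
lemma eq_zero_of_whisker {X Y D : C} [ExactPairing X D] (y : X ⟶ Y) (h : y ▷ D = 0) : y = 0 := by
  have h1 : tensorRightHomEquiv (𝟙_ C) X D Y ((λ_ X).hom ≫ y) = 0 := by
    have h2 : ((λ_ X).hom ≫ y) ▷ D = 0 := by
      rw [comp_whiskerRight, h, comp_zero]
    change (ρ_ (𝟙_ C)).inv ≫ 𝟙_ C ◁ η_ X D ≫ (α_ _ _ _).inv ≫ ((λ_ X).hom ≫ y) ▷ D = 0
    rw [h2, comp_zero, comp_zero, comp_zero]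
  have h3 : tensorRightHomEquiv (𝟙_ C) X D Y (0 : 𝟙_ C ⊗ X ⟶ Y) = 0 := by
    change (ρ_ (𝟙_ C)).inv ≫ 𝟙_ C ◁ η_ X D ≫ (α_ _ _ _).inv ≫ (0 : 𝟙_ C ⊗ X ⟶ Y) ▷ D = 0
    rw [MonoidalPreadditive.zero_whiskerRight, comp_zero, comp_zero, comp_zero]
  have h4 := (tensorRightHomEquiv (𝟙_ C) X D Y).injective (h1.trans h3.symm)
  have h5 : y = (λ_ X).inv ≫ (λ_ X).hom ≫ y := by rw [Iso.inv_hom_id_assoc]
  rw [h5, h4, comp_zero]

end Mon

section Up

variable {C : Type u} [Category.{v} C] [Preadditive C] [MonoidalCategory C]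
  [MonoidalPreadditive C] [SymmetricCategory C] [RightRigidCategory C]

/-- The endomorphism `y ⊗ 1` of the powers of `T ⊗ Tᘁ`. -/
noncomputable def up {T : C} {n : ℕ} (y : tp T n ⟶ tp T n) : tp (T ⊗ Tᘁ) n ⟶ tp (T ⊗ Tᘁ) n :=
  (isoTp T Tᘁ n).hom ≫ (y ▷ dp Tᘁ n) ≫ (isoTp T Tᘁ n).inv

lemma up_comp {T : C} {n : ℕ} (y z : tp T n ⟶ tp T n) : up (y ≫ z) = up y ≫ up z := by
  simp [up]

lemma up_one {T : C} {n : ℕ} : up (𝟙 (tp T n)) = 𝟙 _ := by
  simp [up]

lemma eq_zero_of_up {T : C} {n : ℕ} {y : tp T n ⟶ tp T n} (h : up y = 0) : y = 0 := by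
  let _ := pairTp T Tᘁ n
  refine eq_zero_of_whisker (D := dp Tᘁ n) y ?_
  have h1 : y ▷ dp Tᘁ n = (isoTp T Tᘁ n).inv ≫ up y ≫ (isoTp T Tᘁ n).hom := by
    simp [up]
  rw [h1, h, zero_comp, comp_zero]

variable {Λ : Type t} [Field Λ] [CharZero Λ] [Linear Λ C] [MonoidalLinear Λ C]
  {K : Type w} [Field K] [IsAlgClosed K] [Algebra Λ K] {R : SuperRealisation C K}

lemma numTriv_up (hR : IsReal Λ R) {T : C} {n : ℕ} {y : tp T n ⟶ tp T n} (hy : NumTriv y) :
    NumTriv (up y) :=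
  NumTriv.comp hR (NumTriv.whiskerRight hR hy _) _ _

/-- Products of numerically trivial endomorphisms. -/
lemma numPow_up (hR : IsReal Λ R) {T : C} {n : ℕ} (l : List (End (tp T n)))
    (hl : ∀ y ∈ l, NumTriv (y : tp T n ⟶ tp T n)) :
    NumPow (T ⊗ Tᘁ) l.length (up (l.prod : tp T n ⟶ tp T n)) := by
  induction l with
  | nil => trivial
  | cons y l ih =>
    refine ⟨n, up (l.prod : tp T n ⟶ tp T n), up (y : tp T n ⟶ tp T n),
      ih fun z hz => hl z (List.mem_cons_of_mem _ hz), numTriv_up hR (hl y List.mem_cons_self), ?_⟩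
    rw [← up_comp]
    rfl

end Up

end Pool.Agent.Zk51.NK
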